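import Pool.Agent.Helper97.Tate.Goals

set_option autoImplicit false

namespace Pool.Agent.Helper3.Tate.EVC

open Pool.Agent.Helper97.Tate

noncomputable def g {k : Type} [Field k] (x : kˣ) (n : ℤ) : PowerSeries k :=
  PowerSeries.C ((x ^ n : kˣ) : k) * PowerSeries.binomialSeries k n

theorem g_add {k : Type} [Field k] (x : kˣ) (n m : ℤ) : g x (n + m) = g x n * g x m := by
  unfold g
  rw [zpow_add, Units.val_mul, map_mul, PowerSeries.binomialSeries_add]
  ring

theorem g_zero {k : Type} [Field k] (x : kˣ) : g x 0 = 1 := by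
  unfold g
  rw [zpow_zero, Units.val_one, map_one, PowerSeries.binomialSeries_zero, one_mul]

theorem g_one {k : Type} [Field k] (x : kˣ) : g x 1 = ((xs x : (PowerSeries k)ˣ) : PowerSeries k) := by
  unfold g
  have h := PowerSeries.binomialSeries_nat (R := ℤ) (A := k) 1
  rw [Nat.cast_one, pow_one] at h
  rw [zpow_one, h]
  rfl

theorem g_eq {k : Type} [Field k] (x : kˣ) (n : ℤ) :
    (((xs x) ^ n : (PowerSeries k)ˣ) : PowerSeries k) = g x n := by
  induction n using Int.induction_on with
  | zero => rw [zpow_zero, Units.val_one, g_zero]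
  | succ n ih => rw [zpow_add_one, Units.val_mul, ih, g_add, g_one]
  | pred n ih =>
    rw [zpow_sub_one, Units.val_mul, ih]
    have h1 : ((xs x)⁻¹ : (PowerSeries k)ˣ).val = g x (-1) := by
      rw [Units.inv_eq_of_mul_eq_one_right]
      rw [← g_one, ← g_add]
      simp [g_zero]
    rw [h1, ← g_add]
    rfl

theorem evR_coeff {k : Type} [Field k] (x : kˣ) (α : ℕ) (u : LaurentPolynomial k) :
    PowerSeries.coeff α (evR x u) =
      u.coeff.sum (fun n a => a * (((x ^ n : kˣ) : k) * ((Ring.choose n α : ℤ) : k))) := by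
  induction u using LaurentPolynomial.induction_on' with
  | add p q hp hq =>
    rw [map_add, map_add, hp, hq, AddMonoidAlgebra.coeff_add, Finsupp.sum_add_index']
    · intro n; rw [zero_mul]
    · intro n a b; rw [add_mul]
  | C_mul_T n a =>
    unfold evR
    rw [LaurentPolynomial.eval₂_C_mul_T, g_eq]
    unfold g
    rw [PowerSeries.coeff_C_mul, PowerSeries.coeff_C_mul, PowerSeries.binomialSeries_coeff]
    rw [← LaurentPolynomial.single_eq_C_mul_T, AddMonoidAlgebra.coeff_single, Finsupp.sum_single_index]
    · simp [Algebra.smul_def]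
    · rw [zero_mul]

theorem coeff_evx {k : Type} [Field k] (x : kˣ) (f : SS k) (N α : ℕ) :
    PowerSeries.coeff N (PowerSeries.coeff α (evx x f)) =
      PowerSeries.coeff α (evR x (PowerSeries.coeff N f)) := by
  simp [evx, sw]

theorem t : S_EVC := by
  intro k _ x f N α
  refine ⟨?_, ?_, ?_⟩
  · rw [coeff_evx, evR_coeff]
  · simp [evK]
  · intro a
    ext β
    have h : PowerSeries.coeff β (evx x (iO a)) = PowerSeries.coeff β (PowerSeries.C a : PowerSeries (OO k)) := by
      ext M
      rw [coeff_evx]
      unfold iO evR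
      rw [PowerSeries.coeff_map, LaurentPolynomial.eval₂_C, PowerSeries.coeff_C, PowerSeries.coeff_C]
      split_ifs <;> simp
    have h2 : PowerSeries.coeff β (evK x (iO a)) = algebraMap (OO k) (KK k) (PowerSeries.coeff β (evx x (iO a))) := by
      simp [evK]
    rw [h2, h, PowerSeries.coeff_C, PowerSeries.coeff_C]
    split_ifs <;> simp

end Pool.Agent.Helper3.Tate.EVC
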