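import Pool.Agent.Helper3.FewP.All
import Pool.Agent.Helper3.FewP.WGT
import Pool.Agent.Helper3.FewP.SUP
import Pool.Agent.Helper3.Tate.EVC
import Pool.Agent.Helper70.FewP.BLK
import Pool.Agent.Helper85.FewP.ENT
import Pool.Agent.Helper46.FewP.INJ
import Pool.Agent.Helper40.FewP.IXB
import Pool.Agent.Helper49.FewP.BIN
import Pool.Agent.Helper95.Tate.TIP

set_option autoImplicit false

namespace Pool.Agent.Helper3.Tate.BLK

open Pool.Agent.Helper97.Tate Pool.Agent.Helper3.FewP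

/-- `S_BLK` without hypotheses. -/
theorem t : S_BLK :=
  Pool.Agent.Helper70.FewP.t All.gen All.lif All.pslz Pool.Agent.Helper46.FewP.t
    (Pool.Agent.Helper85.FewP.ENT.t Pool.Agent.Helper3.Tate.EVC.t) SUP.t WGT.t
    Pool.Agent.Helper40.FewP.IXB.t Pool.Agent.Helper49.FewP.BIN.t Pool.Agent.Helper95.Tate.TIP.t

end Pool.Agent.Helper3.Tate.BLK
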